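import Pool.Agent.H64.PC.Fin
import Pool.Agent.H64.PF.PPF
import Pool.Agent.H64.PF.ONE
import Pool.Agent.H64.NC.DCH
import Pool.Agent.H64.JS.CNK
import Pool.Agent.H64.JS.COM
import Pool.Agent.H56.HF.FTF
import Pool.Agent.H57.PF.DIS
import Pool.Agent.H57.CF.ALF

/-!
# Recurrent critical points and components of the post-critical set, all families `m ≤ d`
-/

set_option autoImplicit false

open Filter Topology Polynomial Metric Set

namespace Pool.Agent.H64.PE

open Pool.Agent.H44.Fatou (rat rat_continuous)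
open Pool.Agent.H56.HR (FS EqAt)
open Pool.Agent.H32.BT Pool.Agent.H79.Eul Pool.Agent.H79.Par Pool.Agent.H79.ES Pool.Agent.H44.RC
open Pool.Agent.H47.NM Pool.Agent.H57.CF Pool.Agent.H44.ND Pool.Agent.H35.EX Pool.Agent.H47.RJ
open Pool.Agent.H44.CP Pool.Agent.H64.NC

variable {d : ℕ}

theorem conc_fam {m : ℕ} (hd : 2 ≤ d) (hm : m ≤ d) {x : Em d m} (hcop : IsCoprime (pol x.1) (pol x.2))
    (hdeg : max (pol x.1).natDegree (pol x.2).natDegree = d) (hup : ¬ UpF d m x) :
    ConcP (Rf (ex d m x)) := by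
  have hcop' := ex_cop hcop
  have hdeg' := ex_deg hdeg
  rcases Nat.lt_or_ge m 2 with h2 | h2
  · refine (Pool.Agent.H64.PC.conc_or hd hcop' hdeg').resolve_right fun h => hup ?_
    rcases Nat.lt_or_ge m 1 with h1 | h1
    · obtain rfl : m = 0 := by omega
      exact up_zero h
    · obtain rfl : m = 1 := by omega
      exact Pool.Agent.H64.PF.up_one hd hcop hdeg h
  · exact (concF_all hd h2 hm hcop hdeg).resolve_right hup

theorem meet_fam {m : ℕ} (hd : 2 ≤ d) (hm : m ≤ d) {x : Em d m} (hcop : IsCoprime (pol x.1) (pol x.2))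
    (hdeg : max (pol x.1).natDegree (pol x.2).natDegree = d) (hup : ¬ UpF d m x) :
    Pool.Agent.H64.PF.Meet (ex d m x) := by
  have hcop' := ex_cop hcop
  have hdeg' := ex_deg hdeg
  rcases Nat.lt_or_ge m 2 with h2 | h2
  · have h3 : ¬ Up (ex d m x) := fun h => hup (by
      rcases Nat.lt_or_ge m 1 with h1 | h1
      · obtain rfl : m = 0 := by omega
        exact up_zero h
      · obtain rfl : m = 1 := by omega
        exact Pool.Agent.H64.PF.up_one hd hcop hdeg h)
    exact fun c hc hJ => Pool.Agent.H64.PF.pph hd hcop' hdeg' h3 hc hJ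
  · exact Pool.Agent.H64.PF.pphF Pool.Agent.H57.PF.disF hd (fun k h3 h4 => Pool.Agent.H56.HF.fatF hd h3 h4)
      h2 hm hcop hdeg hup

end Pool.Agent.H64.PE
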